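import Pool.Agent.ABN97.Geom

/-!
# The finite condition on the heights and the covering of the vectors

`Chk ds L` is a finite condition on the heights `Y ds` and a list `L` of labels `(c, Z)`. It says
that every vector `(X, Z)`, `X` not divisible by `h`, which is the half of a centred chord of the
path with rows of length `2 * h`, satisfies `(X / h + 1, Z) ∈ L`.
-/

namespace Pool.Agent.ABN97

/-- three rows -/
def C1 (ds : List ℕ) (L : List (ℕ × ℕ)) (i j : ℕ) : Prop :=
  i ≤ j → ∀ k ∈ [(i + j) / 2, (i + j + 1) / 2], Y ds i + Y ds j = 2 * Y ds k →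
    (i < j → (j - i, Y ds k - Y ds i) ∈ L) ∧ (j - i + 1, Y ds k - Y ds i) ∈ L

/-- column, row, row -/
def C2 (ds : List ℕ) (L : List (ℕ × ℕ)) (i j : ℕ) : Prop :=
  i ≤ j → Y ds (i - 1) + Y ds j ≤ 2 * Y ds ((i + j) / 2) →
    2 * Y ds ((i + j) / 2) ≤ Y ds i + Y ds j → (j - i + 1, Y ds j - Y ds ((i + j) / 2)) ∈ L

/-- row, row, column -/
def C3 (ds : List ℕ) (L : List (ℕ × ℕ)) (i j : ℕ) : Prop :=
  i < j → Y ds (j - 1) + Y ds i ≤ 2 * Y ds ((i + j) / 2) →
    2 * Y ds ((i + j) / 2) ≤ Y ds j + Y ds i → (j - i, Y ds ((i + j) / 2) - Y ds i) ∈ L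

/-- row, column, row -/
def C4 (ds : List ℕ) (L : List (ℕ × ℕ)) (i j : ℕ) : Prop :=
  i ≤ j → (i + j) % 2 = 1 → (Y ds i + Y ds j) % 2 = 0 →
    2 * Y ds ((i + j + 1) / 2 - 1) ≤ Y ds i + Y ds j → Y ds i + Y ds j ≤ 2 * Y ds ((i + j + 1) / 2) →
    (j - i, (Y ds j - Y ds i) / 2) ∈ L ∧ (j - i + 1, (Y ds j - Y ds i) / 2) ∈ L

instance (ds L i j) : Decidable (C1 ds L i j) := by unfold C1; infer_instance
instance (ds L i j) : Decidable (C2 ds L i j) := by unfold C2; infer_instance
instance (ds L i j) : Decidable (C3 ds L i j) := by unfold C3; infer_instance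
instance (ds L i j) : Decidable (C4 ds L i j) := by unfold C4; infer_instance

/-- The finite condition. -/
def Chk (ds : List ℕ) (L : List (ℕ × ℕ)) : Prop :=
  ∀ i < ds.length + 1, (∀ j < ds.length + 1, C1 ds L i j ∧ C2 ds L i j ∧ C4 ds L i j) ∧
    (∀ j < ds.length + 2, C3 ds L i j)

instance (ds L) : Decidable (Chk ds L) := by unfold Chk; infer_instance

theorem mid_row {g i j k a b c : ℕ} (h : 2 * (k * g + b) = (i * g + a) + (j * g + c))
    (ha : a < g) (hb : b < g) (hc : c < g) :
    (2 * k = i + j ∧ 2 * b = a + c) ∨ (2 * k = i + j + 1 ∧ 2 * b + g = a + c) ∨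
      (2 * k + 1 = i + j ∧ 2 * b = a + c + g) := by
  have h1 : ¬ (i + j + 2 ≤ 2 * k) := by
    intro h2
    have h3 : (i + j + 2) * g ≤ 2 * k * g := Nat.mul_le_mul_right g h2
    have h4 : (i + j + 2) * g = i * g + j * g + 2 * g := by ring
    have h5 : 2 * k * g = 2 * (k * g) := by ring
    omega
  have h2 : ¬ (2 * k + 2 ≤ i + j) := by
    intro h2
    have h3 : (2 * k + 2) * g ≤ (i + j) * g := Nat.mul_le_mul_right g h2
    have h4 : (i + j) * g = i * g + j * g := by ring
    have h5 : (2 * k + 2) * g = 2 * (k * g) + 2 * g := by ring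
    omega
  rcases (by omega : 2 * k = i + j ∨ 2 * k = i + j + 1 ∨ 2 * k + 1 = i + j) with h3 | h3 | h3
  · left
    refine ⟨h3, ?_⟩
    have h4 : 2 * (k * g) = i * g + j * g := by
      have : 2 * k * g = (i + j) * g := by rw [h3]
      linarith
    omega
  · right; left
    refine ⟨h3, ?_⟩
    have h4 : 2 * (k * g) = i * g + j * g + g := by
      have : 2 * k * g = (i + j + 1) * g := by rw [h3]
      linarith
    omega
  · right; right
    refine ⟨h3, ?_⟩
    have h4 : 2 * (k * g) + g = i * g + j * g := by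
      have : (2 * k + 1) * g = (i + j) * g := by rw [h3]
      linarith
    omega

theorem end_row {g i j e a c t : ℕ} (h : (e * g + t) + (i * g + a) = j * g + c)
    (ha : a < g) (hc : c < g) (ht : 0 < t) (ht' : t < g) :
    (j = i + e ∧ c = a + t) ∨ (j = i + e + 1 ∧ c + g = a + t) := by
  have h1 : ¬ (i + e + 2 ≤ j) := by
    intro h2
    have h3 : (i + e + 2) * g ≤ j * g := Nat.mul_le_mul_right g h2
    have h4 : (i + e + 2) * g = i * g + e * g + 2 * g := by ring
    omega
  have h2 : ¬ (j + 1 ≤ i + e) := by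
    intro h2
    have h3 : (j + 1) * g ≤ (i + e) * g := Nat.mul_le_mul_right g h2
    have h4 : (i + e) * g = i * g + e * g := by ring
    have h5 : (j + 1) * g = j * g + g := by ring
    omega
  rcases (by omega : j = i + e ∨ j = i + e + 1) with h3 | h3
  · left
    refine ⟨h3, ?_⟩
    have h4 : j * g = i * g + e * g := by rw [h3]; ring
    omega
  · right
    refine ⟨h3, ?_⟩
    have h4 : j * g = i * g + e * g + g := by rw [h3]; ring
    omega

/-- A half vector whose abscissa is not a multiple of `h` belongs to one of the labels. -/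
theorem cover {ds : List ℕ} {L : List (ℕ × ℕ)} (hL : Chk ds L) {h : ℕ} (hh : 0 < h)
    {x y X Z : ℕ} (hX : 0 < X % h) (hp : OnP (2 * h) ds x y)
    (hm : OnP (2 * h) ds (x + X) (y + Z)) (hq : OnP (2 * h) ds (x + 2 * X) (y + 2 * Z)) :
    (X / h + 1, Z) ∈ L := by
  have hg : 0 < 2 * h := by omega
  obtain ⟨e, t, ht, he⟩ : ∃ e t, t < h ∧ X = e * h + t :=
    ⟨X / h, X % h, Nat.mod_lt _ hh, (Nat.div_add_mod' X h).symm⟩
  obtain ⟨i, a, ha, hi⟩ : ∃ i a, a < 2 * h ∧ x = i * (2 * h) + a :=
    ⟨x / (2 * h), x % (2 * h), Nat.mod_lt _ hg, (Nat.div_add_mod' x (2 * h)).symm⟩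
  obtain ⟨k, b, hb, hk⟩ : ∃ k b, b < 2 * h ∧ x + X = k * (2 * h) + b :=
    ⟨(x + X) / (2 * h), (x + X) % (2 * h), Nat.mod_lt _ hg,
      (Nat.div_add_mod' (x + X) (2 * h)).symm⟩
  obtain ⟨j, c, hc, hj⟩ : ∃ j c, c < 2 * h ∧ x + 2 * X = j * (2 * h) + c :=
    ⟨(x + 2 * X) / (2 * h), (x + 2 * X) % (2 * h), Nat.mod_lt _ hg,
      (Nat.div_add_mod' (x + 2 * X) (2 * h)).symm⟩
  have hXe : X / h = e := by
    rw [he, mul_comm, Nat.mul_add_div hh, Nat.div_eq_of_lt ht, add_zero]
  have hXt : X % h = t := by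
    rw [he, mul_comm, Nat.mul_add_mod, Nat.mod_eq_of_lt ht]
  rw [hXt] at hX
  rw [hXe]
  have e1 : 2 * (k * (2 * h) + b) = (i * (2 * h) + a) + (j * (2 * h) + c) := by omega
  have e2 : (e * (2 * h) + 2 * t) + (i * (2 * h) + a) = j * (2 * h) + c := by
    rw [← hi, ← hj, he]; ring
  have hmid := mid_row e1 ha hb hc
  have hend := end_row e2 ha hc (by omega) (by omega)
  rw [hi] at hp
  rw [hk] at hm
  rw [hj] at hq
  obtain ⟨p1, p2⟩ := hp.height hg ha
  obtain ⟨m1, m2⟩ := hm.height hg hb
  obtain ⟨q1, q2⟩ := hq.height hg hc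
  have hik : i ≤ j := by rcases hend with h | h <;> omega
  rcases Nat.eq_zero_or_pos b with hb0 | hb0
  · -- the middle point on a column
    have a0 : 0 < a := by
      rcases Nat.eq_zero_or_pos a with h0 | h0
      · rcases hmid with h | h | h <;> rcases hend with h' | h' <;> omega
      · exact h0
    have c0 : 0 < c := by
      rcases Nat.eq_zero_or_pos c with h0 | h0
      · rcases hmid with h | h | h <;> rcases hend with h' | h' <;> omega
      · exact h0
    obtain ⟨p3, p4⟩ := p1 a0
    obtain ⟨q3, q4⟩ := q1 c0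
    obtain ⟨m3, m4, m5⟩ := m2 hb0
    have h2k : 2 * k = i + j + 1 := by rcases hmid with h | h | h <;> omega
    have hk' : k = (i + j + 1) / 2 := by omega
    have := ((hL i (by omega)).1 j (by omega)).2.2 hik (by omega) (by omega)
      (by rw [← hk']; omega) (by rw [← hk']; omega)
    have hZ : (Y ds j - Y ds i) / 2 = Z := by omega
    rw [hZ] at this
    rcases hend with h | h
    · rw [show e + 1 = j - i + 1 by omega]; exact this.2
    · rw [show e + 1 = j - i by omega]; exact this.1
  · obtain ⟨m3, m4⟩ := m1 hb0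
    rcases Nat.eq_zero_or_pos a with ha0 | ha0
    · -- first point on a column
      have c0 : 0 < c := by rcases hend with h' | h' <;> omega
      obtain ⟨q3, q4⟩ := q1 c0
      obtain ⟨p3, p4, p5⟩ := p2 ha0
      have hk' : k = (i + j) / 2 := by rcases hmid with h | h | h <;> omega
      have := ((hL i (by omega)).1 j (by omega)).2.1 hik (by rw [← hk']; omega) (by rw [← hk']; omega)
      rw [← hk'] at this
      rw [show e + 1 = j - i + 1 by rcases hend with h' | h' <;> omega,
        show Z = Y ds j - Y ds k by omega]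
      exact this
    · obtain ⟨p3, p4⟩ := p1 ha0
      rcases Nat.eq_zero_or_pos c with hc0 | hc0
      · -- last point on a column
        obtain ⟨q3, q4, q5⟩ := q2 hc0
        have hk' : k = (i + j) / 2 := by rcases hmid with h | h | h <;> omega
        have hij : i < j := by rcases hend with h' | h' <;> omega
        have := (hL i (by omega)).2 j (by omega) hij (by rw [← hk']; omega)
          (by rw [← hk']; omega)
        rw [← hk'] at this
        rw [show e + 1 = j - i by rcases hend with h' | h' <;> omega,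
          show Z = Y ds k - Y ds i by omega]
        exact this
      · obtain ⟨q3, q4⟩ := q1 hc0
        have hkmem : k ∈ [(i + j) / 2, (i + j + 1) / 2] := by
          simp only [List.mem_cons, List.not_mem_nil, or_false]
          rcases hmid with h | h | h <;> omega
        have := ((hL i (by omega)).1 j (by omega)).1 hik k hkmem (by omega)
        rw [show Z = Y ds k - Y ds i by omega]
        rcases hend with h | h
        · rw [show e + 1 = j - i + 1 by omega]; exact this.2
        · rw [show e + 1 = j - i by omega]; exact this.1 (by omega)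

end Pool.Agent.ABN97
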