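import Pool.Agent.ABN97.Word

/-! # The explicit vertical steps and labels -/

namespace Pool.Agent.ABN97

/-- the vertical steps -/
def dsT : List ℕ :=
  [1, 1, 1, 3, 9, 17, 1, 1, 1, 29, 3, 29, 9, 311, 9, 29, 3, 29, 1, 1, 1, 17, 9, 3, 1, 1, 1]

/-- the labels -/
def labT : List (ℕ × ℕ) :=
  [(1, 0), (2, 1), (2, 3), (2, 9), (3, 1), (3, 29), (4, 2), (4, 30), (4, 32), (5, 18), (6, 27),
    (7, 29), (8, 30)]

theorem chkT : Chk dsT labT := by decide +kernel

theorem MNL_leT (n : ℕ) : MNL n ≤ 13 * (n / 56) + 7569 := by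
  have := MNL_le chkT n
  simpa [dsT, labT] using this

theorem MNL_ltT {n : ℕ} (hn : 423920 ≤ n) : MNL n < n / 4 := by
  have := MNL_leT n
  omega

end Pool.Agent.ABN97
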