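import Mathlib

/-!
# Geometry of a staircase path with long equal rows

`ds` is a list of vertical steps. The path has `ds.length + 1` horizontal rows of length `g`; row
`i` is at height `Y ds i = (ds.take i).sum`. `OnP g ds x y` says that the lattice point `(x, y)`
lies on the path.
-/

namespace Pool.Agent.ABN97

/-- The height of row `i`. -/
def Y (ds : List ℕ) (i : ℕ) : ℕ := (ds.take i).sum

/-- `(x, y)` is a point of the path with rows of length `g` and vertical steps `ds`. -/
def OnP (g : ℕ) : List ℕ → ℕ → ℕ → Prop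
  | [], x, y => x ≤ g ∧ y = 0
  | d :: ds, x, y => (x ≤ g ∧ y = 0) ∨ (x = g ∧ y ≤ d) ∨ (g ≤ x ∧ d ≤ y ∧ OnP g ds (x - g) (y - d))

theorem Y_zero (ds : List ℕ) : Y ds 0 = 0 := by simp [Y]

theorem Y_cons_succ (d : ℕ) (ds : List ℕ) (i : ℕ) : Y (d :: ds) (i + 1) = d + Y ds i := by
  simp [Y]

theorem Y_nil (i : ℕ) : Y [] i = 0 := by simp [Y]

theorem Y_mono_succ (ds : List ℕ) : ∀ i, Y ds i ≤ Y ds (i + 1) := by
  induction ds with
  | nil => intro i; simp [Y_nil]
  | cons d ds ih =>
    intro i
    cases i with
    | zero => simp [Y_zero]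
    | succ i => rw [Y_cons_succ, Y_cons_succ]; have := ih i; omega

/-- The total width and height. -/
theorem OnP.bound {g : ℕ} : ∀ {ds : List ℕ} {x y : ℕ}, OnP g ds x y →
    x ≤ (ds.length + 1) * g ∧ y ≤ ds.sum := by
  intro ds
  induction ds with
  | nil => rintro x y ⟨h1, h2⟩; simp; omega
  | cons d ds ih =>
    rintro x y (⟨h1, h2⟩ | ⟨h1, h2⟩ | ⟨h1, h2, h3⟩)
    · refine ⟨?_, by omega⟩
      simp only [List.length_cons]; nlinarith
    · refine ⟨?_, by simp only [List.sum_cons]; omega⟩
      simp only [List.length_cons]; nlinarith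
    · have := ih h3
      simp only [List.length_cons, List.sum_cons]
      refine ⟨?_, by omega⟩
      have h4 : x - g ≤ (ds.length + 1) * g := this.1
      have h5 : (ds.length + 1 + 1) * g = (ds.length + 1) * g + g := by ring
      omega

/-- The height of a path point in terms of its abscissa `x = i * g + r`, `r < g`. -/
theorem OnP.height {g : ℕ} (hg : 0 < g) : ∀ {ds : List ℕ} {i r y : ℕ}, r < g →
    OnP g ds (i * g + r) y →
    (0 < r → i ≤ ds.length ∧ y = Y ds i) ∧
    (r = 0 → i ≤ ds.length + 1 ∧ Y ds (i - 1) ≤ y ∧ y ≤ Y ds i) := by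
  intro ds
  induction ds with
  | nil =>
    rintro i r y hr ⟨h1, rfl⟩
    refine ⟨fun h => ⟨?_, by simp [Y_nil]⟩, fun h => ⟨?_, by simp [Y_nil], by simp⟩⟩
    · rcases Nat.eq_zero_or_pos i with rfl | hi
      · exact le_rfl
      · exfalso
        have : g ≤ i * g := Nat.le_mul_of_pos_left g hi
        omega
    · subst h
      by_contra hcon
      have h2 : 2 ≤ i := by simp at hcon; omega
      have : 2 * g ≤ i * g := Nat.mul_le_mul_right g h2
      omega
  | cons d ds ih =>
    intro i r y hr h
    rcases Nat.eq_zero_or_pos i with rfl | hi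
    · -- first row
      have hx : 0 * g + r = r := by simp
      rw [hx] at h
      have hy : y = 0 := by
        rcases h with ⟨_, h⟩ | ⟨h, _⟩ | ⟨h, _⟩
        · exact h
        · omega
        · omega
      subst hy
      exact ⟨fun _ => ⟨by simp, (Y_zero _).symm⟩, fun _ => ⟨by omega, by simp [Y_zero], by simp⟩⟩
    · obtain ⟨j, rfl⟩ : ∃ j, i = j + 1 := ⟨i - 1, by omega⟩
      have hx : (j + 1) * g + r = (j * g + r) + g := by ring
      rw [hx] at h
      rcases h with ⟨h1, h2⟩ | ⟨h1, h2⟩ | ⟨h1, h2, h3⟩
      · -- x = g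
        have hj : j * g = 0 := by omega
        have hj0 : j = 0 := by
          rcases Nat.mul_eq_zero.mp hj with h | h
          · exact h
          · omega
        have hr0 : r = 0 := by omega
        subst hj0 hr0 h2
        exact ⟨fun h => absurd h (lt_irrefl _), fun _ => ⟨by omega, by simp [Y_zero], by simp⟩⟩
      · have hj : j * g = 0 := by omega
        have hj0 : j = 0 := by
          rcases Nat.mul_eq_zero.mp hj with h | h
          · exact h
          · omega
        have hr0 : r = 0 := by omega
        subst hj0 hr0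
        refine ⟨fun h => absurd h (lt_irrefl _), fun _ => ⟨by omega, by simp [Y_zero], ?_⟩⟩
        rw [Y_cons_succ, Y_zero]; omega
      · have h4 : j * g + r + g - g = j * g + r := by omega
        rw [h4] at h3
        obtain ⟨ha, hb⟩ := ih hr h3
        refine ⟨fun h => ?_, fun h => ?_⟩
        · obtain ⟨h5, h6⟩ := ha h
          refine ⟨by simp only [List.length_cons]; omega, ?_⟩
          rw [Y_cons_succ]; omega
        · obtain ⟨h5, h6, h7⟩ := hb h
          refine ⟨by simp only [List.length_cons]; omega, ?_, ?_⟩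
          · rcases Nat.eq_zero_or_pos j with rfl | hj
            · simp [Y_zero]
            · obtain ⟨k, rfl⟩ : ∃ k, j = k + 1 := ⟨j - 1, by omega⟩
              simp only [Nat.add_sub_cancel] at h6 ⊢
              rw [Y_cons_succ]; omega
          · rw [Y_cons_succ]; omega

end Pool.Agent.ABN97
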