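import Pool.Agent.ABN97.Cover

/-!
# Words with long equal rows and the number of their abelian squares
-/

namespace Pool.Agent.ABN97

/-- The Parikh vector of a binary word (letters `true` and `false`). -/
def parikh (u : List Bool) : ℕ × ℕ := (u.count true, u.count false)

/-- The Parikh vectors of the first halves of the abelian squares `u ++ v` that occur as factors of
the word `w`; they correspond to the equivalence classes of abelian squares of `w`. -/
def squareClasses (w : List Bool) : Set (ℕ × ℕ) :=
  {q | ∃ s u v t : List Bool, w = s ++ u ++ v ++ t ∧ u ≠ [] ∧ v ≠ [] ∧ parikh u = parikh v ∧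
    parikh u = q}

/-- The number of non-equivalent abelian squares in `w`. -/
noncomputable def numClasses (w : List Bool) : ℕ := (squareClasses w).ncard

/-- The least number of non-equivalent abelian squares in a binary word of length `n`. -/
noncomputable def MNL (n : ℕ) : ℕ := sInf {m | ∃ w : List Bool, w.length = n ∧ numClasses w = m}

theorem finite_squareClasses (w : List Bool) : (squareClasses w).Finite := by
  refine ((Finset.range (w.length + 1) ×ˢ
    Finset.range (w.length + 1)).finite_toSet).subset ?_
  rintro q ⟨s, u, v, t, hw, -, -, -, rfl⟩
  have h1 := List.count_le_length (a := true) (l := u)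
  have h2 := List.count_le_length (a := false) (l := u)
  have h3 : w.length = s.length + u.length + v.length + t.length := by
    rw [hw]; simp only [List.length_append]
  simp only [Finset.coe_product, Finset.coe_range, Set.mem_prod, Set.mem_Iio, parikh]
  omega

/-- the word `a^g b^(d_0) a^g b^(d_1) ... a^g` -/
def word (g : ℕ) : List ℕ → List Bool
  | [] => List.replicate g true
  | d :: ds => List.replicate g true ++ (List.replicate d false ++ word g ds)

theorem length_word (g : ℕ) (ds : List ℕ) :
    (word g ds).length = (ds.length + 1) * g + ds.sum := by
  induction ds with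
  | nil => simp [word]
  | cons d ds ih => simp only [word, List.length_append, List.length_replicate, ih,
      List.length_cons, List.sum_cons]; ring

theorem onP_take (g : ℕ) : ∀ (ds : List ℕ) (t : ℕ),
    OnP g ds (((word g ds).take t).count true) (((word g ds).take t).count false) := by
  intro ds
  induction ds with
  | nil =>
    intro t
    simp only [word, List.take_replicate, List.count_replicate]
    simp [OnP]
  | cons d ds ih =>
    intro t
    have h1 : ((word g (d :: ds)).take t).count true =
        min t g + ((word g ds).take (t - g - d)).count true := by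
      simp only [word, List.take_append, List.count_append, List.take_replicate,
        List.count_replicate, List.length_replicate]
      simp
    have h2 : ((word g (d :: ds)).take t).count false =
        min (t - g) d + ((word g ds).take (t - g - d)).count false := by
      simp only [word, List.take_append, List.count_append, List.take_replicate,
        List.count_replicate, List.length_replicate]
      simp
    rw [h1, h2]
    rcases Nat.lt_or_ge t (g + d) with h | h
    · rw [show t - g - d = 0 by omega]
      simp only [List.take_zero, List.count_nil, add_zero]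
      rcases Nat.lt_or_ge t g with h' | h'
      · left; omega
      · right; left; omega
    · right; right
      rw [min_eq_right (by omega), min_eq_right (by omega)]
      refine ⟨by omega, by omega, ?_⟩
      rw [Nat.add_sub_cancel_left, Nat.add_sub_cancel_left]
      exact ih _

theorem onP_prefix {g : ℕ} {ds : List ℕ} {u v : List Bool} (h : word g ds = u ++ v) :
    OnP g ds (u.count true) (u.count false) := by
  have := onP_take g ds u.length
  rwa [h, List.take_left'] at this
  rfl

theorem squareClasses_prefix {u v : List Bool} : squareClasses u ⊆ squareClasses (u ++ v) := by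
  rintro q ⟨s, u', v', t, hw, h1, h2, h3, h4⟩
  exact ⟨s, u', v', t ++ v, by rw [hw]; simp [List.append_assoc], h1, h2, h3, h4⟩

theorem numClasses_prefix (u v : List Bool) : numClasses u ≤ numClasses (u ++ v) :=
  Set.ncard_le_ncard squareClasses_prefix (finite_squareClasses _)

/-- the finite superset of the classes -/
def cand (ds : List ℕ) (L : List (ℕ × ℕ)) (h : ℕ) : Finset (ℕ × ℕ) :=
  ((Finset.range (ds.length + 2) ×ˢ Finset.range (ds.sum / 2 + 1)).image
    (fun p => (p.1 * h, p.2))) ∪
  L.toFinset.biUnion (fun l => (Finset.Ioo ((l.1 - 1) * h) (l.1 * h)).image (fun X => (X, l.2)))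

theorem card_cand (ds : List ℕ) (L : List (ℕ × ℕ)) (h : ℕ) :
    (cand ds L h).card ≤ (ds.length + 2) * (ds.sum / 2 + 1) + L.length * (h - 1) := by
  unfold cand
  refine (Finset.card_union_le _ _).trans (add_le_add ?_ ?_)
  · refine Finset.card_image_le.trans ?_
    simp
  · refine (Finset.card_biUnion_le_card_mul _ _ (h - 1) ?_).trans ?_
    · intro l _
      refine Finset.card_image_le.trans ?_
      rw [Nat.card_Ioo]
      rcases Nat.eq_zero_or_pos l.1 with h0 | h0
      · rw [h0]; simp
      · obtain ⟨c, hc⟩ : ∃ c, l.1 = c + 1 := ⟨l.1 - 1, by omega⟩
        rw [hc, Nat.add_sub_cancel, Nat.add_mul, one_mul]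
        omega
    · exact Nat.mul_le_mul_right _ (List.toFinset_card_le L)

theorem squareClasses_word {ds : List ℕ} {L : List (ℕ × ℕ)} (hL : Chk ds L) {h : ℕ} (hh : 0 < h) :
    squareClasses (word (2 * h) ds) ⊆ (cand ds L h : Set (ℕ × ℕ)) := by
  rintro q ⟨s, u, v, t, hw, -, -, huv, rfl⟩
  have e1 : u.count true = v.count true := congrArg Prod.fst huv
  have e2 : u.count false = v.count false := congrArg Prod.snd huv
  have p1 : OnP (2 * h) ds (s.count true) (s.count false) :=
    onP_prefix (v := u ++ v ++ t) (by rw [hw]; simp [List.append_assoc])
  have p2 : OnP (2 * h) ds (s.count true + u.count true) (s.count false + u.count false) := by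
    have := onP_prefix (u := s ++ u) (v := v ++ t) (g := 2 * h) (ds := ds)
      (by rw [hw]; simp [List.append_assoc])
    simpa [List.count_append] using this
  have p3 : OnP (2 * h) ds (s.count true + 2 * u.count true)
      (s.count false + 2 * u.count false) := by
    have := onP_prefix (u := s ++ u ++ v) (v := t) (g := 2 * h) (ds := ds) hw
    simp only [List.count_append, ← e1, ← e2] at this
    rw [show s.count true + 2 * u.count true = s.count true + u.count true + u.count true by ring,
      show s.count false + 2 * u.count false =
        s.count false + u.count false + u.count false by ring]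
    exact this
  obtain ⟨b1, b2⟩ := p3.bound
  have hX : u.count true ≤ (ds.length + 1) * h := by
    have : (ds.length + 1) * (2 * h) = 2 * ((ds.length + 1) * h) := by ring
    omega
  have hmain : parikh u ∈ cand ds L h := by
    unfold cand
    rw [Finset.mem_union]
    rcases Nat.eq_zero_or_pos (u.count true % h) with h0 | h0
    · left
      rw [Finset.mem_image]
      refine ⟨(u.count true / h, u.count false), ?_, ?_⟩
      · rw [Finset.mem_product, Finset.mem_range, Finset.mem_range]
        refine ⟨?_, by simp only; omega⟩
        have : u.count true / h ≤ ds.length + 1 := by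
          rw [Nat.div_le_iff_le_mul_add_pred hh]
          have : h * (ds.length + 1) = (ds.length + 1) * h := mul_comm _ _
          omega
        simp only
        omega
      · simp only [parikh]
        rw [Nat.div_mul_cancel (Nat.dvd_of_mod_eq_zero h0)]
    · right
      rw [Finset.mem_biUnion]
      refine ⟨(u.count true / h + 1, u.count false), ?_, ?_⟩
      · rw [List.mem_toFinset]
        exact cover hL hh h0 p1 p2 p3
      · rw [Finset.mem_image]
        refine ⟨u.count true, ?_, rfl⟩
        rw [Finset.mem_Ioo]
        have h1 : u.count true / h * h + u.count true % h = u.count true :=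
          Nat.div_add_mod' _ _
        have h2 : u.count true % h < h := Nat.mod_lt _ hh
        simp only [Nat.add_sub_cancel]
        rw [Nat.add_mul, one_mul]
        omega
  exact_mod_cast hmain

theorem numClasses_word {ds : List ℕ} {L : List (ℕ × ℕ)} (hL : Chk ds L) {h : ℕ} (hh : 0 < h) :
    numClasses (word (2 * h) ds) ≤
      (ds.length + 2) * (ds.sum / 2 + 1) + L.length * (h - 1) := by
  unfold numClasses
  refine (Set.ncard_le_ncard (squareClasses_word hL hh) (Finset.finite_toSet _)).trans ?_
  rw [Set.ncard_coe_finset]
  exact card_cand ds L h

theorem MNL_le {ds : List ℕ} {L : List (ℕ × ℕ)} (hL : Chk ds L) (n : ℕ) :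
    MNL n ≤ L.length * (n / (2 * (ds.length + 1))) +
      (ds.length + 2) * (ds.sum / 2 + 1) := by
  set R := ds.length + 1 with hR
  set h := n / (2 * R) + 1 with hh
  set w := word (2 * h) ds with hw
  have hlen : n ≤ w.length := by
    rw [hw, length_word, ← hR]
    have h1 : n < 2 * R * (n / (2 * R) + 1) := by
      have := Nat.lt_mul_div_succ n (show 0 < 2 * R by omega)
      simpa using this
    have h2 : R * (2 * h) = 2 * R * (n / (2 * R) + 1) := by rw [hh]; ring
    omega
  have h1 : MNL n ≤ numClasses (w.take n) :=
    Nat.sInf_le ⟨w.take n, by rw [List.length_take, min_eq_left hlen], rfl⟩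
  have h2 : numClasses (w.take n) ≤ numClasses w := by
    have := numClasses_prefix (w.take n) (w.drop n)
    rwa [List.take_append_drop] at this
  have h3 := numClasses_word hL (h := h) (by rw [hh]; exact Nat.succ_pos _)
  rw [← hw] at h3
  have h4 : h - 1 = n / (2 * R) := by rw [hh, Nat.add_sub_cancel]
  rw [h4] at h3
  exact (h1.trans (h2.trans h3)).trans (le_of_eq (add_comm _ _))

end Pool.Agent.ABN97
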